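import Pool.Agent.V11316.R748

set_option autoImplicit false

/-!
# `R_r(q) ≡ R_s(q) (mod Φ_{n^s}(q)²)` for `n ≡ 1 (mod 4)`, `n > 1`, `r > s ≥ 1`
-/

namespace Pool.Agent.Results.MP_74870a_nt.PhiSquare

open Polynomial Finset

noncomputable section

/-- the indeterminate `q` -/
def q : RatFunc ℚ := RatFunc.X

/-- the `q`-shifted factorial `(a;p)_k = ∏_{i<k} (1 - a p^i)` -/
def poch (a p : RatFunc ℚ) (k : ℕ) : RatFunc ℚ := ∏ i ∈ range k, (1 - a * p ^ i)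

/-- `R_t(q)` -/
def R (n t : ℕ) : RatFunc ℚ :=
  (poch q (q ^ 2) ((n ^ t - 1) / 4) * poch (q ^ (2 * n)) (q ^ (2 * n)) ((n ^ (t - 1) - 1) / 4)) /
    (poch (q ^ 2) (q ^ 2) ((n ^ t - 1) / 4) * poch (q ^ n) (q ^ (2 * n)) ((n ^ (t - 1) - 1) / 4))

/-- `F ≡ G (mod P)`: in lowest terms `F - G = A/B` with `P ∣ A` and `B` coprime to `P` -/
def Cong (P : ℚ[X]) (F G : RatFunc ℚ) : Prop :=
  P ∣ (F - G).num ∧ IsCoprime (F - G).denom P

theorem R_eq (n t : ℕ) : R n t = V11316.R748.Rt n t := by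
  have h1 : ∀ (c : ℕ) (m : ℕ), V11316.R748.P1 c m =
      poch (q ^ c) (q ^ (2 * c)) m / poch (q ^ (2 * c)) (q ^ (2 * c)) m := by
    intro c m
    rw [V11316.R748.P1, poch, poch, prod_div_distrib]
    congr 1
    · refine prod_congr rfl fun i _ => ?_
      rw [← pow_mul, ← pow_add]
      congr 2
      ring
    · refine prod_congr rfl fun i _ => ?_
      rw [← pow_mul, ← pow_add]
      congr 2
      ring
  rw [V11316.R748.Rt, h1, h1, R, V11316.R748.Mt, V11316.R748.Mt]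
  simp only [mul_one, pow_one]
  rw [div_div_div_eq]

/-- For every `n ≡ 1 (mod 4)` with `n > 1` and all `r > s ≥ 1`,
`R_r(q) ≡ R_s(q) (mod Φ_{n^s}(q)²)`. -/
theorem result (n : ℕ) (h4 : n ≡ 1 [MOD 4]) (h1 : 1 < n) (r s : ℕ) (hs : 0 < s) (hr : s < r) :
    Cong (cyclotomic (n ^ s) ℚ ^ 2) (R n r) (R n s) := by
  have h5 : n % 4 = 1 := h4
  obtain ⟨h, rfl⟩ : ∃ h, n = 4 * h + 1 := ⟨n / 4, by omega⟩
  obtain ⟨d, rfl⟩ := Nat.exists_eq_add_of_le hr.le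
  have h2 := V11316.R748.main (by omega : 0 < h) hs d
  have h3 : cyclotomic ((4 * h + 1) ^ s) ℚ ^ 2 ∣
      (V11316.R748.Rt (4 * h + 1) (s + d) - V11316.R748.Rt (4 * h + 1) s).num :=
    V11307.Q.I.num_dvd (by positivity) h2
  rw [Cong, R_eq, R_eq]
  refine ⟨h3, ?_⟩
  exact ((RatFunc.isCoprime_num_denom _).of_isCoprime_of_dvd_left h3).symm

end

end Pool.Agent.Results.MP_74870a_nt.PhiSquare
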